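import Pool.Agent.H63TC.DmMain

set_option autoImplicit false

open Finset

namespace Pool.Agent.H63TC.Dm39

theorem sum_prod {n : ℕ} (h : Fin n → Bool → ℝ) :
    ∑ x : Fin n → Bool, ∏ i, h i (x i) = ∏ i, ∑ b : Bool, h i b := by
  have e := (Finset.prod_univ_sum (fun _ : Fin n => (univ : Finset Bool)) h).symm
  rw [Fintype.piFinset_univ] at e
  exact e

/-- The noise operator on the uniform density of a subcube. -/
theorem noise_cube {ρ : ℝ} {n : ℕ} (S : Finset (Fin n)) (z x : Fin n → Bool) :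
    noise ρ (fun y => if ∀ i ∈ S, y i = z i then 2 ^ S.card else 0) x =
      ∏ i : Fin n, if i ∈ S then (if x i = z i then 1 + ρ else 1 - ρ) else 1 := by
  have e1 : ∀ y : Fin n → Bool, (if ∀ i ∈ S, y i = z i then (2 : ℝ) ^ S.card else 0) =
      ∏ i : Fin n, if i ∈ S then (if y i = z i then 2 else 0) else 1 := by
    intro y
    rw [Finset.prod_ite_mem, Finset.univ_inter]
    by_cases hy : ∀ i ∈ S, y i = z i
    · rw [if_pos hy, Finset.prod_congr rfl (fun i hi => if_pos (hy i hi)), Finset.prod_const]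
    · rw [if_neg hy]
      push Not at hy
      obtain ⟨i, hi, hne⟩ := hy
      exact (Finset.prod_eq_zero hi (if_neg hne)).symm
  unfold noise
  simp only [e1]
  unfold wt
  simp only [← Finset.prod_mul_distrib]
  rw [sum_prod (fun i b => (if x i = b then (1 + ρ) / 2 else (1 - ρ) / 2) *
    (if i ∈ S then (if b = z i then 2 else 0) else 1))]
  refine Finset.prod_congr rfl fun i _ => ?_
  rw [Fintype.sum_bool]
  by_cases hi : i ∈ S
  · simp only [if_pos hi]
    cases x i <;> cases z i <;> simp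
  · simp only [if_neg hi]
    cases x i <;> simp <;> ring

/-- The moments of the noise operator on the uniform density of a subcube. -/
theorem cube_mom {ρ : ℝ} (h0 : 0 < ρ) (h1 : ρ < 1) {n : ℕ} (S : Finset (Fin n))
    (z : Fin n → Bool) (p : ℝ) :
    ∑ x : Fin n → Bool, (∏ i : Fin n, if i ∈ S then (if x i = z i then 1 + ρ else 1 - ρ)
      else 1) ^ p = 2 ^ n * (((1 + ρ) ^ p + (1 - ρ) ^ p) / 2) ^ S.card := by
  have hA : 0 ≤ 1 + ρ := by linarith
  have hB : 0 ≤ 1 - ρ := by linarith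
  have e : ∀ x : Fin n → Bool, (∏ i : Fin n, if i ∈ S then
      (if x i = z i then 1 + ρ else 1 - ρ) else 1) ^ p =
      ∏ i : Fin n, (if i ∈ S then (if x i = z i then (1 + ρ) ^ p else (1 - ρ) ^ p) else 1) := by
    intro x
    rw [← Real.finsetProd_rpow]
    · refine Finset.prod_congr rfl fun i _ => ?_
      split_ifs <;> simp
    · intro i _
      split_ifs <;> first | assumption | norm_num
  simp only [e]
  rw [sum_prod (fun i b => if i ∈ S then (if b = z i then (1 + ρ) ^ p else (1 - ρ) ^ p) else 1)]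
  have e2 : ∀ i : Fin n, (∑ b : Bool, if i ∈ S then
      (if b = z i then (1 + ρ) ^ p else (1 - ρ) ^ p) else (1 : ℝ)) =
      2 * (if i ∈ S then ((1 + ρ) ^ p + (1 - ρ) ^ p) / 2 else 1) := by
    intro i
    rw [Fintype.sum_bool]
    by_cases hi : i ∈ S
    · simp only [if_pos hi]
      cases z i <;> simp <;> ring
    · simp only [if_neg hi]
      norm_num
  simp only [e2]
  rw [Finset.prod_mul_distrib, Finset.prod_ite_mem, Finset.univ_inter, Finset.prod_const,
    Finset.prod_const]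
  simp

/-- The base of the moments is at least one. -/
theorem one_le_base {ρ : ℝ} (h0 : 0 < ρ) (h1 : ρ < 1) (s : ℝ) (hs : 0 ≤ s) :
    1 ≤ ((1 + ρ) ^ (1 + s) + (1 - ρ) ^ (1 + s)) / 2 := by
  have h := Real.rpow_arith_mean_le_arith_mean_rpow (univ : Finset Bool) (fun _ => 1 / 2)
    (fun b => if b then 1 + ρ else 1 - ρ) (fun _ _ => by norm_num) (by norm_num)
    (fun b _ => by cases b <;> simp <;> linarith) (show (1 : ℝ) ≤ 1 + s by linarith)
  rw [Fintype.sum_bool, Fintype.sum_bool] at h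
  simp only [if_true, Bool.false_eq_true, if_false] at h
  have e : 1 / 2 * (1 + ρ) + 1 / 2 * (1 - ρ) = 1 := by ring
  rw [e, Real.one_rpow] at h
  linarith

open Classical in
/-- **Chernoff bound below the critical codimension**: mixtures of subcube densities. -/
theorem upper_mix {ρ : ℝ} (h0 : 0 < ρ) (h1 : ρ < 1) {n : ℕ} {ι : Type} [Fintype ι]
    (a : ι → ℝ) (ha : ∀ j, 0 ≤ a j) (hs1 : ∑ j, a j = 1) (S : ι → Finset (Fin n))
    (z : ι → Fin n → Bool) (m : ℕ) (hS : ∀ j, (S j).card ≤ m) (t : ℝ) (ht : 0 < t)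
    (hk : m * (((1 + ρ) * Real.log (1 + ρ) + (1 - ρ) * Real.log (1 - ρ)) / 2) ≤ Real.log t) :
    ((univ.filter fun x : Fin n → Bool => t ≤ noise ρ (fun y => ∑ j, a j *
      (if ∀ i ∈ S j, y i = z j i then 2 ^ (S j).card else 0)) x).card : ℝ) / 2 ^ n ≤
      (1 / t) * Real.exp (-(2 * (Real.log t -
        m * (((1 + ρ) * Real.log (1 + ρ) + (1 - ρ) * Real.log (1 - ρ)) / 2)) ^ 2 /
        (m * Real.log ((1 + ρ) / (1 - ρ)) ^ 2))) := by
  have hA : 0 < 1 + ρ := by linarith
  have hB : 0 < 1 - ρ := by linarith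
  have h2 : (0 : ℝ) < 2 ^ n := by positivity
  set κ : ℝ := ((1 + ρ) * Real.log (1 + ρ) + (1 - ρ) * Real.log (1 - ρ)) / 2 with hκ
  set L : ℝ := Real.log ((1 + ρ) / (1 - ρ)) with hL
  have hL0 : 0 < L := Real.log_pos (by rw [lt_div_iff₀ hB]; linarith)
  set D : ℝ := Real.log t - m * κ with hD
  have hD0 : 0 ≤ D := by linarith
  set s : ℝ := 4 * D / (m * L ^ 2) with hsd
  have hs : 0 ≤ s := div_nonneg (by linarith) (by positivity)
  set u : ι → (Fin n → Bool) → ℝ := fun j x => ∏ i : Fin n,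
    if i ∈ S j then (if x i = z j i then 1 + ρ else 1 - ρ) else 1 with hu
  have hu0 : ∀ j x, 0 ≤ u j x := by
    intro j x
    refine Finset.prod_nonneg fun i _ => ?_
    split_ifs <;> linarith
  have hT : ∀ x, noise ρ (fun y => ∑ j, a j *
      (if ∀ i ∈ S j, y i = z j i then 2 ^ (S j).card else 0)) x = ∑ j, a j * u j x := by
    intro x
    have e : ∀ j, u j x = noise ρ (fun y => if ∀ i ∈ S j, y i = z j i then
        2 ^ (S j).card else 0) x := fun j => (noise_cube (S j) (z j) x).symm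
    simp only [e]
    unfold noise
    simp only [Finset.mul_sum]
    rw [Finset.sum_comm]
    refine Finset.sum_congr rfl fun j _ => Finset.sum_congr rfl fun y _ => ?_
    ring
  simp only [hT]
  have hN : ∀ x, 0 ≤ ∑ j, a j * u j x := fun x =>
    Finset.sum_nonneg fun j _ => mul_nonneg (ha j) (hu0 j x)
  have hM : ((univ.filter fun x : Fin n → Bool => t ≤ ∑ j, a j * u j x).card : ℝ) *
      t ^ (1 + s) ≤ ∑ x, (∑ j, a j * u j x) ^ (1 + s) := by
    calc ((univ.filter fun x : Fin n → Bool => t ≤ ∑ j, a j * u j x).card : ℝ) * t ^ (1 + s)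
        = ∑ x ∈ univ.filter (fun x : Fin n → Bool => t ≤ ∑ j, a j * u j x), t ^ (1 + s) := by
          rw [Finset.sum_const, nsmul_eq_mul]
      _ ≤ ∑ x ∈ univ.filter (fun x : Fin n → Bool => t ≤ ∑ j, a j * u j x),
            (∑ j, a j * u j x) ^ (1 + s) := by
          refine Finset.sum_le_sum fun x hx => ?_
          exact Real.rpow_le_rpow ht.le (Finset.mem_filter.mp hx).2 (by linarith)
      _ ≤ ∑ x, (∑ j, a j * u j x) ^ (1 + s) :=
          Finset.sum_le_sum_of_subset_of_nonneg (Finset.filter_subset _ _)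
            fun x _ _ => Real.rpow_nonneg (hN x) _
  have hb := one_le_base h0 h1 s hs
  have hP : ∑ x, (∑ j, a j * u j x) ^ (1 + s) ≤
      2 ^ n * (((1 + ρ) ^ (1 + s) + (1 - ρ) ^ (1 + s)) / 2) ^ m := by
    calc ∑ x, (∑ j, a j * u j x) ^ (1 + s)
        ≤ ∑ x, ∑ j, a j * u j x ^ (1 + s) :=
          Finset.sum_le_sum fun x _ => Real.rpow_arith_mean_le_arith_mean_rpow univ a
            (fun j => u j x) (fun j _ => ha j) hs1 (fun j _ => hu0 j x) (by linarith)
      _ = ∑ j, a j * (2 ^ n * (((1 + ρ) ^ (1 + s) + (1 - ρ) ^ (1 + s)) / 2) ^ (S j).card) := by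
          rw [Finset.sum_comm]
          refine Finset.sum_congr rfl fun j _ => ?_
          rw [← Finset.mul_sum, ← cube_mom h0 h1 (S j) (z j)]
      _ ≤ ∑ j, a j * (2 ^ n * (((1 + ρ) ^ (1 + s) + (1 - ρ) ^ (1 + s)) / 2) ^ m) :=
          Finset.sum_le_sum fun j _ => mul_le_mul_of_nonneg_left
            (mul_le_mul_of_nonneg_left (pow_le_pow_right₀ hb (hS j)) h2.le) (ha j)
      _ = 2 ^ n * (((1 + ρ) ^ (1 + s) + (1 - ρ) ^ (1 + s)) / 2) ^ m := by
          rw [← Finset.sum_mul, hs1, one_mul]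
  have hH := Pool.Agent.H63TC.Dm.hoef h0 h1 s hs
  have hH2 : (((1 + ρ) ^ (1 + s) + (1 - ρ) ^ (1 + s)) / 2) ^ m ≤
      Real.exp (m * (s * κ + s ^ 2 * L ^ 2 / 8)) := by
    rw [Real.exp_nat_mul]
    exact pow_le_pow_left₀ (by linarith) hH m
  have hTt : t ^ (1 + s) = t * Real.exp (s * Real.log t) := by
    rw [Real.rpow_add ht, Real.rpow_one, Real.rpow_def_of_pos ht, mul_comm s]
  have hT0 : 0 < t * Real.exp (s * Real.log t) := mul_pos ht (Real.exp_pos _)
  have hmain : ((univ.filter fun x : Fin n → Bool => t ≤ ∑ j, a j * u j x).card : ℝ) *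
      (t * Real.exp (s * Real.log t)) ≤ 2 ^ n * Real.exp (m * (s * κ + s ^ 2 * L ^ 2 / 8)) := by
    rw [← hTt]
    exact le_trans hM (le_trans hP (mul_le_mul_of_nonneg_left hH2 h2.le))
  have hexp : (m : ℝ) * (s * κ + s ^ 2 * L ^ 2 / 8) - s * Real.log t =
      -(2 * D ^ 2 / (m * L ^ 2)) := by
    have e1 : (m : ℝ) * (s * κ + s ^ 2 * L ^ 2 / 8) - s * Real.log t =
        m * s ^ 2 * L ^ 2 / 8 - s * D := by
      rw [hD]
      ring
    rw [e1, hsd]
    rcases Nat.eq_zero_or_pos m with hn | hn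
    · rw [hn]
      simp
    · have hn' : (0 : ℝ) < m := by exact_mod_cast hn
      field_simp
      ring
  rw [div_le_iff₀ h2]
  have e2 : (1 / t) * Real.exp (-(2 * D ^ 2 / (m * L ^ 2))) * 2 ^ n =
      2 ^ n * Real.exp (m * (s * κ + s ^ 2 * L ^ 2 / 8)) / (t * Real.exp (s * Real.log t)) := by
    rw [← hexp, Real.exp_sub]
    field_simp
  rw [e2, le_div_iff₀ hT0]
  exact hmain

end Pool.Agent.H63TC.Dm39
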