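import Pool.Agent.H39Dm.Mix

set_option autoImplicit false

open Finset

namespace Pool.Agent.H63TC.Dm39

theorem sum_agree {n : ℕ} (S : Finset (Fin n)) (y : Fin n → Bool) :
    ∑ z : Fin n → Bool, (if ∀ i ∈ S, y i = z i then (2 : ℝ) ^ S.card else 0) = 2 ^ n := by
  have e1 : ∀ z : Fin n → Bool, (if ∀ i ∈ S, y i = z i then (2 : ℝ) ^ S.card else 0) =
      ∏ i : Fin n, if i ∈ S then (if y i = z i then 2 else 0) else 1 := by
    intro z
    rw [Finset.prod_ite_mem, Finset.univ_inter]
    by_cases hy : ∀ i ∈ S, y i = z i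
    · rw [if_pos hy, Finset.prod_congr rfl (fun i hi => if_pos (hy i hi)), Finset.prod_const]
    · rw [if_neg hy]
      push Not at hy
      obtain ⟨i, hi, hne⟩ := hy
      exact (Finset.prod_eq_zero hi (if_neg hne)).symm
  simp only [e1]
  rw [sum_prod (fun i b => if i ∈ S then (if y i = b then (2 : ℝ) else 0) else 1)]
  have e2 : ∀ i : Fin n, (∑ b : Bool, if i ∈ S then (if y i = b then (2 : ℝ) else 0) else 1) =
      2 := by
    intro i
    rw [Fintype.sum_bool]
    by_cases hi : i ∈ S
    · simp only [if_pos hi]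
      cases y i <;> simp
    · simp only [if_neg hi]
      norm_num
  simp only [e2]
  simp

/-- A non-negative function of mean one which depends only on the coordinates in `S` is a mixture
of uniform densities of subcubes given by the coordinates in `S`. -/
theorem junta {n : ℕ} (S : Finset (Fin n)) (f : (Fin n → Bool) → ℝ)
    (hf : ∀ x y, (∀ i ∈ S, x i = y i) → f x = f y) (y : Fin n → Bool) :
    f y = ∑ z, f z / 2 ^ n * (if ∀ i ∈ S, y i = z i then 2 ^ S.card else 0) := by
  have e : ∀ z, f z / 2 ^ n * (if ∀ i ∈ S, y i = z i then (2 : ℝ) ^ S.card else 0) =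
      f y / 2 ^ n * (if ∀ i ∈ S, y i = z i then (2 : ℝ) ^ S.card else 0) := by
    intro z
    by_cases h : ∀ i ∈ S, y i = z i
    · rw [hf y z h]
    · rw [if_neg h, mul_zero, mul_zero]
  rw [Finset.sum_congr rfl fun z _ => e z, ← Finset.mul_sum, sum_agree]
  have h2 : (0 : ℝ) < 2 ^ n := by positivity
  field_simp

end Pool.Agent.H63TC.Dm39
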